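import Pool.Agent.H.MP_f8820e_gt.Proof

/-!
# The virtual unknotting number equals the virtual unknotting sequence number

The definitions are in `Pool/Agent/H/MP_f8820e_gt/Defs.lean`, the proof is in
`Pool/Agent/H/MP_f8820e_gt/Proof.lean`.
-/

open Pool.Agent.H.MP_f8820e_gt

namespace Pool.Agent.Results.MP_f8820e_gt.VuEqVus

/-- For every virtual knot the virtual unknotting number equals its sequential version. -/
theorem result : ∀ K : VirtualKnot, vu K = vus K :=
  vu_eq_vus

end Pool.Agent.Results.MP_f8820e_gt.VuEqVus
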